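import Mathlib
import Pool.Agent.FacLarge.Div

/-!
MP_9c60ac_nt: for every `k >= 2` and every `eps > 0`, for all large `X` at least
`(1/6 - eps) X ^ (3/k)` pairs `(N1, N2)` with `N1, N2 <= X` are `k`-realisable.
-/

set_option autoImplicit false

namespace Pool.Agent.Results.MP_9c60ac_nt.CountingBound

open Finset Filter

/-- `n` is a `k`-powerful number (positive, and `p ^ k` divides `n` for each prime `p` dividing `n`). -/
def Powerful (k n : ℕ) : Prop := 0 < n ∧ ∀ p : ℕ, p.Prime → p ∣ n → p ^ k ∣ n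

/-- the pair `(N1, N2)` of positive integers is `k`-realisable. -/
def Realisable (k N1 N2 : ℕ) : Prop :=
  0 < N1 ∧ 0 < N2 ∧ ∃ n1 n2 n3 : ℕ, Powerful k n1 ∧ Powerful k n2 ∧ Powerful k n3 ∧
    n2 = n1 + N1 ∧ n3 = n2 + N2

theorem powerful_pow {k m : ℕ} (hm : 0 < m) : Powerful k (m ^ k) :=
  ⟨pow_pos hm k, fun _ hp h => pow_dvd_pow_of_dvd (hp.dvd_of_dvd_pow h) k⟩

theorem conv_le (g t u : ℕ) : ∀ k : ℕ, (u + g) ^ k + (u + t) ^ k ≤ (u + t + g) ^ k + u ^ k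
  | 0 => by simp
  | k + 1 => by
    have ih := conv_le g t u k
    have h1 : (u + g) ^ k ≤ (u + t + g) ^ k := Nat.pow_le_pow_left (by omega) k
    have h2 : (u + t) ^ k ≤ (u + t + g) ^ k := Nat.pow_le_pow_left (by omega) k
    have e1 := Nat.mul_le_mul_left u ih
    have e2 := Nat.mul_le_mul_left g h1
    have e3 := Nat.mul_le_mul_left t h2
    calc (u + g) ^ (k + 1) + (u + t) ^ (k + 1)
        = u * ((u + g) ^ k + (u + t) ^ k) + g * (u + g) ^ k + t * (u + t) ^ k := by ring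
      _ ≤ u * ((u + t + g) ^ k + u ^ k) + g * (u + t + g) ^ k + t * (u + t + g) ^ k := by
        omega
      _ = (u + t + g) ^ (k + 1) + u ^ (k + 1) := by ring

theorem conv_lt {g t u k : ℕ} (hg : 0 < g) (ht : 0 < t) (hk : 2 ≤ k) :
    (u + g) ^ k + (u + t) ^ k < (u + t + g) ^ k + u ^ k := by
  obtain ⟨j, rfl⟩ : ∃ j, k = j + 1 := ⟨k - 1, by omega⟩
  have ih := conv_le g t u j
  have h1 : (u + g) ^ j ≤ (u + t + g) ^ j := Nat.pow_le_pow_left (by omega) j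
  have h2 : (u + t) ^ j < (u + t + g) ^ j := Nat.pow_lt_pow_left (by omega) (by omega)
  have e1 := Nat.mul_le_mul_left u ih
  have e2 := Nat.mul_le_mul_left g h1
  have e3 := Nat.mul_lt_mul_of_pos_left h2 ht
  calc (u + g) ^ (j + 1) + (u + t) ^ (j + 1)
      = u * ((u + g) ^ j + (u + t) ^ j) + g * (u + g) ^ j + t * (u + t) ^ j := by ring
    _ < u * ((u + t + g) ^ j + u ^ j) + g * (u + t + g) ^ j + t * (u + t + g) ^ j := by
      omega
    _ = (u + t + g) ^ (j + 1) + u ^ (j + 1) := by ring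

/-- the pairs `u < v` below `Z` with `(v+1)^k - (u+1)^k = M` -/
def Rep (k Z M : ℕ) : Finset (ℕ × ℕ) :=
  ((range Z) ×ˢ (range Z)).filter fun p => p.1 < p.2 ∧ (p.2 + 1) ^ k = (p.1 + 1) ^ k + M

theorem mem_Rep {k Z M u v : ℕ} : (u, v) ∈ Rep k Z M ↔
    (u < Z ∧ v < Z) ∧ u < v ∧ (v + 1) ^ k = (u + 1) ^ k + M := by
  simp [Rep]

theorem card_Rep_le {k Z M : ℕ} (hk : 2 ≤ k) : (Rep k Z M).card ≤ M.divisors.card := by
  refine Finset.card_le_card_of_injOn (fun p => p.2 - p.1) ?_ ?_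
  · rintro ⟨u, v⟩ h
    rw [Finset.mem_coe, mem_Rep] at h
    obtain ⟨_, h1, h2⟩ := h
    have h3 : (u + 1) ^ k < (v + 1) ^ k := Nat.pow_lt_pow_left (by omega) (by omega)
    have h4 : M = (v + 1) ^ k - (u + 1) ^ k := by omega
    rw [Finset.mem_coe, Nat.mem_divisors]
    refine ⟨?_, by omega⟩
    have h5 := Nat.sub_dvd_pow_sub_pow (v + 1) (u + 1) k
    have h6 : v + 1 - (u + 1) = v - u := by omega
    rw [h6, ← h4] at h5
    exact h5
  · rintro ⟨u, v⟩ h ⟨u', v'⟩ h' he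
    rw [Finset.mem_coe, mem_Rep] at h h'
    obtain ⟨_, h1, h2⟩ := h
    obtain ⟨_, h1', h2'⟩ := h'
    have he' : v - u = v' - u' := he
    obtain ⟨g, hg⟩ : ∃ g, g = v - u := ⟨_, rfl⟩
    have hg0 : 0 < g := by omega
    have hv : v + 1 = u + 1 + g := by omega
    have hv' : v' + 1 = u' + 1 + g := by omega
    rw [hv] at h2
    rw [hv'] at h2'
    rcases lt_trichotomy u u' with hlt | heq | hgt
    · exfalso
      obtain ⟨t, ht⟩ : ∃ t, u' + 1 = u + 1 + t := ⟨u' - u, by omega⟩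
      have h9 := conv_lt (g := g) (t := t) (u := u + 1) hg0 (by omega) hk
      rw [← ht] at h9
      omega
    · subst heq
      have : v = v' := by omega
      rw [this]
    · exfalso
      obtain ⟨t, ht⟩ : ∃ t, u + 1 = u' + 1 + t := ⟨u - u', by omega⟩
      have h9 := conv_lt (g := g) (t := t) (u := u' + 1) hg0 (by omega) hk
      rw [← ht] at h9
      omega

/-- the triples `a < b < c` below `Z` -/
def S (Z : ℕ) : Finset ((_ : ℕ) × (_ : ℕ) × ℕ) :=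
  (range Z).sigma fun c => (range c).sigma fun b => range b

theorem card_S (Z : ℕ) : ((S Z).card : ℝ) = (Z : ℝ) * (Z - 1) * (Z - 2) / 6 := by
  have h1 : ∀ c : ℕ, (((range c).sigma fun b => range b).card : ℝ) = (c : ℝ) * (c - 1) / 2 := by
    intro c
    rw [Finset.card_sigma]
    push_cast
    induction c with
    | zero => simp
    | succ n ih => rw [Finset.sum_range_succ, ih, Finset.card_range]; push_cast; ring
  rw [S, Finset.card_sigma]
  push_cast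
  simp_rw [h1]
  induction Z with
  | zero => simp
  | succ n ih => rw [Finset.sum_range_succ, ih]; push_cast; ring

/-- the pair of differences -/
def f (k : ℕ) (s : (_ : ℕ) × (_ : ℕ) × ℕ) : ℕ × ℕ :=
  ((s.2.1 + 1) ^ k - (s.2.2 + 1) ^ k, (s.1 + 1) ^ k - (s.2.1 + 1) ^ k)

open Classical in
/-- the triples whose image is shared -/
noncomputable def Bad (k Z : ℕ) : Finset ((_ : ℕ) × (_ : ℕ) × ℕ) :=
  (S Z).filter fun s => ∃ s' ∈ S Z, s' ≠ s ∧ f k s' = f k s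

def Cs (k Z b b' : ℕ) : Finset ℕ :=
  (Rep k Z ((b + 1) ^ k - (b' + 1) ^ k)).image Prod.snd ∪
    (Rep k Z ((b' + 1) ^ k - (b + 1) ^ k)).image Prod.fst

theorem mem_S {Z c b a : ℕ} : (⟨c, b, a⟩ : (_ : ℕ) × (_ : ℕ) × ℕ) ∈ S Z ↔
    c < Z ∧ b < c ∧ a < b := by
  simp [S]

def Big (k Z : ℕ) : Finset ((_ : ℕ) × (_ : ℕ) × ℕ) :=
  ((range Z) ×ˢ (range Z)).biUnion fun p =>
    (Rep k Z ((p.2 + 1) ^ k - (p.1 + 1) ^ k)).biUnion fun q =>
      (Cs k Z p.2 q.2).image fun c => ⟨c, p.2, p.1⟩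

theorem bad_sub {k Z : ℕ} (hk : 2 ≤ k) : Bad k Z ⊆ Big k Z := by
  classical
  rintro ⟨c, b, a⟩ h
  rw [Bad, Finset.mem_filter] at h
  obtain ⟨hS, ⟨c', b', a'⟩, hS', hne, hf⟩ := h
  rw [mem_S] at hS hS'
  have hk0 : k ≠ 0 := by omega
  have p1 : (a + 1) ^ k < (b + 1) ^ k := Nat.pow_lt_pow_left (by omega) hk0
  have p2 : (b + 1) ^ k < (c + 1) ^ k := Nat.pow_lt_pow_left (by omega) hk0
  have p1' : (a' + 1) ^ k < (b' + 1) ^ k := Nat.pow_lt_pow_left (by omega) hk0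
  have p2' : (b' + 1) ^ k < (c' + 1) ^ k := Nat.pow_lt_pow_left (by omega) hk0
  simp only [f, Prod.mk.injEq] at hf
  obtain ⟨f1, f2⟩ := hf
  have hb : b' ≠ b := by
    intro hbb
    subst hbb
    have e1 : (a' + 1) ^ k = (a + 1) ^ k := by omega
    have e2 : (c' + 1) ^ k = (c + 1) ^ k := by omega
    have e3 : a' + 1 = a + 1 := Nat.pow_left_injective hk0 e1
    have e4 : c' + 1 = c + 1 := Nat.pow_left_injective hk0 e2
    apply hne
    have e5 : a' = a := by omega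
    have e6 : c' = c := by omega
    rw [e5, e6]
  rw [Big, Finset.mem_biUnion]
  refine ⟨(a, b), by simp; omega, ?_⟩
  rw [Finset.mem_biUnion]
  refine ⟨(a', b'), ?_, ?_⟩
  · rw [mem_Rep]
    refine ⟨by omega, by omega, ?_⟩
    show (b' + 1) ^ k = (a' + 1) ^ k + ((b + 1) ^ k - (a + 1) ^ k)
    omega
  · rw [Finset.mem_image]
    refine ⟨c, ?_, rfl⟩
    show c ∈ Cs k Z b b'
    rw [Cs, Finset.mem_union, Finset.mem_image, Finset.mem_image]
    rcases lt_or_gt_of_ne hb with hlt | hgt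
    · left
      have q : (b' + 1) ^ k < (b + 1) ^ k := Nat.pow_lt_pow_left (by omega) hk0
      refine ⟨(c', c), ?_, rfl⟩
      rw [mem_Rep]
      have q2 : (c' + 1) ^ k < (c + 1) ^ k := by omega
      have q3 : c' + 1 < c + 1 := lt_of_pow_lt_pow_left₀ k (by omega) q2
      exact ⟨by omega, by omega, by omega⟩
    · right
      have q : (b + 1) ^ k < (b' + 1) ^ k := Nat.pow_lt_pow_left (by omega) hk0
      refine ⟨(c, c'), ?_, rfl⟩
      rw [mem_Rep]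
      have q2 : (c + 1) ^ k < (c' + 1) ^ k := by omega
      have q3 : c + 1 < c' + 1 := lt_of_pow_lt_pow_left₀ k (by omega) q2
      exact ⟨by omega, by omega, by omega⟩

theorem card_bad {k Z D : ℕ} (hk : 2 ≤ k)
    (hD : ∀ n : ℕ, n ≠ 0 → n ≤ Z ^ k → n.divisors.card ≤ D) :
    (Bad k Z).card ≤ Z * Z * (D * (2 * D)) := by
  classical
  have hR : ∀ M : ℕ, M ≤ Z ^ k → (Rep k Z M).card ≤ D := by
    intro M hM
    rcases Nat.eq_zero_or_pos M with h0 | h0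
    · have := card_Rep_le (k := k) (Z := Z) (M := M) hk
      subst h0
      simp at this
      simp [this]
    · exact (card_Rep_le hk).trans (hD M (by omega) hM)
  have hle : ∀ b c : ℕ, b < Z → (b + 1) ^ k - (c + 1) ^ k ≤ Z ^ k := by
    intro b c hb
    have : (b + 1) ^ k ≤ Z ^ k := Nat.pow_le_pow_left (by omega) k
    omega
  have hC : ∀ b b' : ℕ, b < Z → b' < Z → (Cs k Z b b').card ≤ 2 * D := by
    intro b b' hb hb'
    rw [Cs]
    refine (Finset.card_union_le _ _).trans ?_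
    have h1 := (Finset.card_image_le (s := Rep k Z ((b + 1) ^ k - (b' + 1) ^ k))
      (f := Prod.snd)).trans (hR _ (hle b b' hb))
    have h2 := (Finset.card_image_le (s := Rep k Z ((b' + 1) ^ k - (b + 1) ^ k))
      (f := Prod.fst)).trans (hR _ (hle b' b hb'))
    omega
  refine (Finset.card_le_card (bad_sub hk)).trans ?_
  rw [Big]
  have hcard : ((range Z) ×ˢ (range Z)).card = Z * Z := by simp
  rw [← hcard]
  refine Finset.card_biUnion_le_card_mul _ _ _ ?_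
  rintro ⟨a, b⟩ hab
  simp only [Finset.mem_product, Finset.mem_range] at hab
  refine (Finset.card_biUnion_le_card_mul _ _ (2 * D) ?_).trans ?_
  · rintro ⟨a', b'⟩ hq
    rw [mem_Rep] at hq
    exact Finset.card_image_le.trans (hC b b' hab.2 hq.1.2)
  · exact Nat.mul_le_mul_right _ (hR _ (hle b a hab.2))

/-- the realisable pairs in the square of side `X` -/
def Rset (k X : ℕ) : Set (ℕ × ℕ) := {P | P.1 ≤ X ∧ P.2 ≤ X ∧ Realisable k P.1 P.2}

theorem finite_Rset (k X : ℕ) : (Rset k X).Finite := by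
  refine Set.Finite.subset ((Set.finite_Iic X).prod (Set.finite_Iic X)) ?_
  rintro ⟨a, b⟩ ⟨h1, h2, _⟩
  exact ⟨h1, h2⟩

theorem f_mem {k Z X : ℕ} (hk : 2 ≤ k) (hX : Z ^ k ≤ X)
    {s : (_ : ℕ) × (_ : ℕ) × ℕ} (hs : s ∈ S Z) : f k s ∈ Rset k X := by
  obtain ⟨c, b, a⟩ := s
  rw [mem_S] at hs
  have hk0 : k ≠ 0 := by omega
  have p1 : (a + 1) ^ k < (b + 1) ^ k := Nat.pow_lt_pow_left (by omega) hk0
  have p2 : (b + 1) ^ k < (c + 1) ^ k := Nat.pow_lt_pow_left (by omega) hk0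
  have p3 : (c + 1) ^ k ≤ Z ^ k := Nat.pow_le_pow_left (by omega) k
  refine ⟨?_, ?_, ?_, ?_, (a + 1) ^ k, (b + 1) ^ k, (c + 1) ^ k,
    powerful_pow (by omega), powerful_pow (by omega), powerful_pow (by omega), ?_, ?_⟩
  · show (b + 1) ^ k - (a + 1) ^ k ≤ X
    omega
  · show (c + 1) ^ k - (b + 1) ^ k ≤ X
    omega
  · show 0 < (b + 1) ^ k - (a + 1) ^ k
    omega
  · show 0 < (c + 1) ^ k - (b + 1) ^ k
    omega
  · show (b + 1) ^ k = (a + 1) ^ k + ((b + 1) ^ k - (a + 1) ^ k)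
    omega
  · show (c + 1) ^ k = (b + 1) ^ k + ((c + 1) ^ k - (b + 1) ^ k)
    omega

theorem card_S_le {k Z X : ℕ} (hk : 2 ≤ k) (hX : Z ^ k ≤ X) :
    (S Z).card ≤ (Rset k X).ncard + (Bad k Z).card := by
  classical
  have h1 : (S Z).card = ((S Z) \ Bad k Z).card + (Bad k Z).card := by
    have hsub : Bad k Z ⊆ S Z := Finset.filter_subset _ _
    rw [Finset.card_sdiff_of_subset hsub]
    have := Finset.card_le_card hsub
    omega
  have h2 : ((S Z) \ Bad k Z).card = (((S Z) \ Bad k Z).image (f k)).card := by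
    rw [Finset.card_image_of_injOn]
    intro s hs s' hs' he
    rw [Finset.mem_coe, Finset.mem_sdiff] at hs hs'
    by_contra hne
    apply hs.2
    rw [Bad, Finset.mem_filter]
    exact ⟨hs.1, s', hs'.1, fun h => hne h.symm, he.symm⟩
  have h3 : (((S Z) \ Bad k Z).image (f k)).card ≤ (Rset k X).ncard := by
    rw [← Set.ncard_coe_finset]
    refine Set.ncard_le_ncard ?_ (finite_Rset k X)
    intro P hP
    rw [Finset.mem_coe, Finset.mem_image] at hP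
    obtain ⟨s, hs, rfl⟩ := hP
    rw [Finset.mem_sdiff] at hs
    exact f_mem hk hX hs.1
  omega

theorem exists_D {k C Z : ℕ} (hk : 2 ≤ k)
    (hC : ∀ n : ℕ, n ≠ 0 → (n.divisors.card) ^ (8 * k) ≤ C * n) :
    ∃ D : ℕ, D ^ 8 ≤ C * Z ∧ ∀ n : ℕ, n ≠ 0 → n ≤ Z ^ k → n.divisors.card ≤ D := by
  refine ⟨Nat.findGreatest (fun d => d ^ 8 ≤ C * Z) (C * Z), ?_, ?_⟩
  · exact Nat.findGreatest_spec (P := fun d => d ^ 8 ≤ C * Z) (m := 0) (Nat.zero_le _)
      (by simp)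
  · intro n hn hnZ
    have h1 : (n.divisors.card ^ 8) ^ k ≤ (C * Z) ^ k := by
      rw [← pow_mul]
      calc n.divisors.card ^ (8 * k) ≤ C * n := hC n hn
        _ ≤ C ^ k * Z ^ k := Nat.mul_le_mul (Nat.le_self_pow (by omega) C) hnZ
        _ = (C * Z) ^ k := (mul_pow _ _ _).symm
    have h2 : n.divisors.card ^ 8 ≤ C * Z := le_of_pow_le_pow_left₀ (by omega) (Nat.zero_le _) h1
    exact Nat.le_findGreatest ((Nat.le_self_pow (by norm_num) _).trans h2) h2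

theorem real_step {y Z D C ε : ℝ} (hy : 3 ≤ y) (hZ1 : y - 1 ≤ Z) (hZ2 : Z ≤ y)
    (hD : D ^ 8 ≤ C * Z) (hC : 0 ≤ C) (h1 : C ≤ (ε / 4) ^ 4 * y ^ 3)
    (h2 : 1 ≤ ε / 2 * y) (hε : 0 < ε) :
    (1 / 6 - ε) * y ^ 3 ≤ Z * (Z - 1) * (Z - 2) / 6 - Z * Z * (D * (2 * D)) := by
  have hD2 : D ^ 2 ≤ ε / 4 * y := by
    by_contra hcon
    rw [not_le] at hcon
    have e1 : (ε / 4 * y) ^ 4 < (D ^ 2) ^ 4 :=
      pow_lt_pow_left₀ hcon (by positivity) (by norm_num)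
    have e2 : (D ^ 2) ^ 4 = D ^ 8 := by ring
    have e3 : (ε / 4 * y) ^ 4 = (ε / 4) ^ 4 * y ^ 3 * y := by ring
    have e4 : C * y ≤ (ε / 4) ^ 4 * y ^ 3 * y := mul_le_mul_of_nonneg_right h1 (by linarith)
    have e5 : C * Z ≤ C * y := mul_le_mul_of_nonneg_left hZ2 hC
    linarith
  have hZ0 : 0 ≤ Z := by linarith
  have b1 : Z * Z * (D * (2 * D)) ≤ ε / 2 * y ^ 3 := by
    have c1 : Z * Z ≤ y * y := mul_le_mul hZ2 hZ2 hZ0 (by linarith)
    calc Z * Z * (D * (2 * D)) = (Z * Z) * (2 * D ^ 2) := by ring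
      _ ≤ (y * y) * (2 * (ε / 4 * y)) := by
        apply mul_le_mul c1 (by linarith) (by positivity) (by positivity)
      _ = ε / 2 * y ^ 3 := by ring
  have b2 : (y - 1) * (y - 2) * (y - 3) ≤ Z * (Z - 1) * (Z - 2) := by
    apply mul_le_mul
    · apply mul_le_mul hZ1 (by linarith) (by linarith) hZ0
    · linarith
    · linarith
    · apply mul_nonneg hZ0
      linarith
  have b3 : y ^ 3 - 6 * y ^ 2 ≤ (y - 1) * (y - 2) * (y - 3) := by
    have : (y - 1) * (y - 2) * (y - 3) = y ^ 3 - 6 * y ^ 2 + (11 * y - 6) := by ring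
    rw [this]
    linarith
  have b4 : y ^ 2 ≤ ε / 2 * y ^ 3 := by
    have : y ^ 2 * 1 ≤ y ^ 2 * (ε / 2 * y) := mul_le_mul_of_nonneg_left h2 (by positivity)
    calc y ^ 2 = y ^ 2 * 1 := (mul_one _).symm
      _ ≤ y ^ 2 * (ε / 2 * y) := this
      _ = ε / 2 * y ^ 3 := by ring
  linarith

/-- For every `k >= 2` and every `eps > 0`, for all large `X` at least `(1/6 - eps) X ^ (3/k)`
pairs `(N1, N2)` with `N1, N2 <= X` are `k`-realisable. -/
theorem result (k : ℕ) (hk : 2 ≤ k) (ε : ℝ) (hε : 0 < ε) :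
    ∀ᶠ X : ℕ in atTop, (1 / 6 - ε) * (X : ℝ) ^ ((3 : ℝ) / (k : ℝ)) ≤
      (({P : ℕ × ℕ | P.1 ≤ X ∧ P.2 ≤ X ∧ Realisable k P.1 P.2}.ncard : ℕ) : ℝ) := by
  obtain ⟨C, _, hC⟩ := Pool.Agent.FacLarge.card_divisors_pow_le (8 * k)
  have hk0 : (0 : ℝ) < k := by
    have : 0 < k := by omega
    exact_mod_cast this
  have hlim : Tendsto (fun X : ℕ => (X : ℝ) ^ ((1 : ℝ) / (k : ℝ))) atTop atTop :=
    (tendsto_rpow_atTop (by positivity)).comp tendsto_natCast_atTop_atTop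
  have l1 : ∀ᶠ y : ℝ in atTop, 3 ≤ y := eventually_ge_atTop 3
  have l2 : ∀ᶠ y : ℝ in atTop, (C : ℝ) ≤ (ε / 4) ^ 4 * y ^ 3 := by
    have : Tendsto (fun y : ℝ => (ε / 4) ^ 4 * y ^ 3) atTop atTop :=
      (tendsto_pow_atTop (by norm_num)).const_mul_atTop (by positivity)
    exact this.eventually_ge_atTop _
  have l3 : ∀ᶠ y : ℝ in atTop, 1 ≤ ε / 2 * y := by
    have : Tendsto (fun y : ℝ => ε / 2 * y) atTop atTop :=
      tendsto_id.const_mul_atTop (by positivity)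
    exact this.eventually_ge_atTop _
  have hev := hlim.eventually (l1.and (l2.and l3))
  filter_upwards [hev] with X hX
  obtain ⟨h1, h2, h3⟩ := hX
  obtain ⟨y, hy⟩ : ∃ y : ℝ, y = (X : ℝ) ^ ((1 : ℝ) / (k : ℝ)) := ⟨_, rfl⟩
  rw [← hy] at h1 h2 h3
  have hy0 : 0 ≤ y := by linarith
  have hyk : y ^ k = X := by
    rw [hy, ← Real.rpow_natCast, ← Real.rpow_mul (Nat.cast_nonneg X),
      one_div_mul_cancel hk0.ne', Real.rpow_one]
  have hy3 : (X : ℝ) ^ ((3 : ℝ) / (k : ℝ)) = y ^ 3 := by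
    rw [hy, ← Real.rpow_natCast, ← Real.rpow_mul (Nat.cast_nonneg X)]
    congr 1
    push_cast
    ring
  obtain ⟨Z, hZ⟩ : ∃ Z : ℕ, Z = ⌊y⌋₊ := ⟨_, rfl⟩
  have hZ2 : (Z : ℝ) ≤ y := by rw [hZ]; exact Nat.floor_le hy0
  have hZ1 : y - 1 ≤ (Z : ℝ) := by
    have := Nat.lt_floor_add_one y
    rw [← hZ] at this
    linarith
  have hZX : Z ^ k ≤ X := by
    have : (Z : ℝ) ^ k ≤ (X : ℝ) := by
      rw [← hyk]
      exact pow_le_pow_left₀ (Nat.cast_nonneg Z) hZ2 k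
    exact_mod_cast this
  obtain ⟨D, hD8, hD⟩ := exists_D (k := k) (C := C) (Z := Z) hk hC
  have hcount := card_S_le (k := k) (Z := Z) (X := X) hk hZX
  have hbad := card_bad (k := k) (Z := Z) (D := D) hk hD
  have hcount' : ((S Z).card : ℝ) ≤ ((Rset k X).ncard : ℝ) + ((Bad k Z).card : ℝ) := by
    exact_mod_cast hcount
  have hbad' : ((Bad k Z).card : ℝ) ≤ (Z : ℝ) * Z * ((D : ℝ) * (2 * D)) := by
    exact_mod_cast hbad
  have hD8' : (D : ℝ) ^ 8 ≤ (C : ℝ) * Z := by exact_mod_cast hD8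
  have hfin := real_step (ε := ε) h1 hZ1 hZ2 hD8' (Nat.cast_nonneg C) h2 h3 hε
  rw [card_S] at hcount'
  rw [hy3]
  show (1 / 6 - ε) * y ^ 3 ≤ ((Rset k X).ncard : ℝ)
  linarith

end Pool.Agent.Results.MP_9c60ac_nt.CountingBound
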