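import Mathlib

namespace Pool.Agent.Results.MP_9c60ac_nt.DenseMultiples

/-- `n` is `k`-powerful: it is positive and divisible by `p ^ k` for every prime `p` dividing it. -/
def KPowerful (k n : ℕ) : Prop := 0 < n ∧ ∀ p : ℕ, p.Prime → p ∣ n → p ^ k ∣ n

/-- The pair `(N₁, N₂)` is `k`-realisable: there are `k`-powerful numbers `n₁, n₂, n₃` with
`n₂ - n₁ = N₁` and `n₃ - n₂ = N₂`. -/
def Realisable (k N₁ N₂ : ℕ) : Prop :=
  ∃ n₁ n₂ n₃ : ℕ, KPowerful k n₁ ∧ KPowerful k n₂ ∧ KPowerful k n₃ ∧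
    n₂ = n₁ + N₁ ∧ n₃ = n₂ + N₂

/-- Local choice at one prime. -/
theorem local_choice (k p : ℕ) (hp : p.Prime) (d₁ d₂ : ℕ) :
    ∃ c : ℕ, (¬ p ∣ c ∨ p ^ k ∣ c) ∧ (¬ p ∣ c + d₁ ∨ p ^ k ∣ c + d₁) ∧
      (¬ p ∣ c + d₂ ∨ p ^ k ∣ c + d₂) := by
  by_cases h3 : 3 < p
  · -- one of 1, 2, 3 works
    have hnd : ∀ c, 0 < c → c < 4 → ¬ p ∣ c := fun c h0 h4 h => by
      have := Nat.le_of_dvd h0 h
      omega
    -- each d kills at most one of 1, 2, 3
    have hk : ∀ d a b, a < b → b < 4 → p ∣ a + d → p ∣ b + d → False := by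
      intro d a b hab hb h1 h2
      have h := (Nat.dvd_sub h2 h1)
      have e : b + d - (a + d) = b - a := by omega
      rw [e] at h
      have := Nat.le_of_dvd (by omega) h
      omega
    by_cases a1 : p ∣ 1 + d₁ <;> by_cases a2 : p ∣ 1 + d₂ <;> by_cases b1 : p ∣ 2 + d₁ <;>
      by_cases b2 : p ∣ 2 + d₂ <;> by_cases c1 : p ∣ 3 + d₁ <;> by_cases c2 : p ∣ 3 + d₂ <;>
      first
        | exact ⟨1, Or.inl (hnd 1 (by norm_num) (by norm_num)), Or.inl a1, Or.inl a2⟩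
        | exact ⟨2, Or.inl (hnd 2 (by norm_num) (by norm_num)), Or.inl b1, Or.inl b2⟩
        | exact ⟨3, Or.inl (hnd 3 (by norm_num) (by norm_num)), Or.inl c1, Or.inl c2⟩
        | exact (hk d₁ 1 2 (by norm_num) (by norm_num) a1 b1).elim
        | exact (hk d₂ 1 2 (by norm_num) (by norm_num) a2 b2).elim
        | exact (hk d₁ 1 3 (by norm_num) (by norm_num) a1 c1).elim
        | exact (hk d₂ 1 3 (by norm_num) (by norm_num) a2 c2).elim
        | exact (hk d₁ 2 3 (by norm_num) (by norm_num) b1 c1).elim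
        | exact (hk d₂ 2 3 (by norm_num) (by norm_num) b2 c2).elim
  · have hp2 := hp.two_le
    have hpk : ∀ d, ∃ c, p ^ k ∣ c + d ∧ p ∣ c + d := by
      intro d
      refine ⟨d * (p ^ (k + 1) - 1), ?_, ?_⟩
      · have h1 : 1 ≤ p ^ (k + 1) := Nat.one_le_pow _ _ hp.pos
        have e : d * (p ^ (k + 1) - 1) + d = d * p ^ (k + 1) := by
          rw [Nat.mul_sub, mul_one]
          have : d ≤ d * p ^ (k + 1) := Nat.le_mul_of_pos_right _ h1
          omega
        rw [e, pow_succ, ← mul_assoc]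
        exact Dvd.dvd.mul_right (Dvd.intro_left _ rfl) _
      · have h1 : 1 ≤ p ^ (k + 1) := Nat.one_le_pow _ _ hp.pos
        have e : d * (p ^ (k + 1) - 1) + d = d * p ^ (k + 1) := by
          rw [Nat.mul_sub, mul_one]
          have : d ≤ d * p ^ (k + 1) := Nat.le_mul_of_pos_right _ h1
          omega
        rw [e, pow_succ]
        exact Dvd.dvd.mul_left (Dvd.intro_left _ rfl) _
    have hcase : p = 2 ∨ p = 3 := by omega
    rcases hcase with rfl | rfl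
    · -- p = 2
      rcases Nat.mod_two_eq_zero_or_one d₁ with e1 | e1 <;>
        rcases Nat.mod_two_eq_zero_or_one d₂ with e2 | e2
      · exact ⟨1, Or.inl (by omega), Or.inl (by omega), Or.inl (by omega)⟩
      · obtain ⟨c, hc, hc'⟩ := hpk d₂
        exact ⟨c, Or.inl (by omega), Or.inl (by omega), Or.inr hc⟩
      · obtain ⟨c, hc, hc'⟩ := hpk d₁
        exact ⟨c, Or.inl (by omega), Or.inr hc, Or.inl (by omega)⟩
      · exact ⟨0, Or.inr (dvd_zero _), Or.inl (by omega), Or.inl (by omega)⟩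
    · -- p = 3
      have m1 : d₁ % 3 = 0 ∨ d₁ % 3 = 1 ∨ d₁ % 3 = 2 := by omega
      have m2 : d₂ % 3 = 0 ∨ d₂ % 3 = 1 ∨ d₂ % 3 = 2 := by omega
      rcases m1 with e1 | e1 | e1 <;> rcases m2 with e2 | e2 | e2 <;>
        first
          | exact ⟨1, Or.inl (by omega), Or.inl (by omega), Or.inl (by omega)⟩
          | exact ⟨2, Or.inl (by omega), Or.inl (by omega), Or.inl (by omega)⟩
          | exact ⟨0, Or.inr (dvd_zero _), Or.inl (by omega), Or.inl (by omega)⟩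

/-- Choice of the base point for all primes dividing `M`. -/
theorem base_point (k M : ℕ) (d₁ d₂ : ℕ) :
    ∃ n : ℕ, 0 < n ∧ ∀ p ∈ M.primeFactors, (¬ p ∣ n ∨ p ^ k ∣ n) ∧
      (¬ p ∣ n + d₁ ∨ p ^ k ∣ n + d₁) ∧ (¬ p ∣ n + d₂ ∨ p ^ k ∣ n + d₂) := by
  classical
  choose! c hc using fun p (hp : p ∈ M.primeFactors) =>
    local_choice k p (Nat.prime_of_mem_primeFactors hp) d₁ d₂
  obtain ⟨n₀, hn₀⟩ := Nat.chineseRemainderOfFinset c (fun p => p ^ (k + 1)) M.primeFactors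
    (fun p hp => pow_ne_zero _ (Nat.prime_of_mem_primeFactors hp).ne_zero)
    (by
      intro p hp q hq hpq
      exact Nat.Coprime.pow _ _ ((Nat.coprime_primes (Nat.prime_of_mem_primeFactors hp)
        (Nat.prime_of_mem_primeFactors hq)).2 hpq))
  set L : ℕ := ∏ p ∈ M.primeFactors, p ^ (k + 1) with hL
  have hLpos : 0 < L := Finset.prod_pos fun p hp =>
    pow_pos (Nat.prime_of_mem_primeFactors hp).pos _
  refine ⟨n₀ + L, by omega, fun p hp => ?_⟩
  have hdL : p ^ (k + 1) ∣ L := Finset.dvd_prod_of_mem _ hp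
  have hmod : n₀ + L ≡ c p [MOD p ^ (k + 1)] := by
    have h1 : n₀ + L ≡ n₀ + 0 [MOD p ^ (k + 1)] :=
      Nat.ModEq.add_left _ ((Nat.modEq_zero_iff_dvd).2 hdL)
    exact h1.trans (hn₀ p hp)
  have key : ∀ d, (¬ p ∣ c p + d ∨ p ^ k ∣ c p + d) →
      (¬ p ∣ n₀ + L + d ∨ p ^ k ∣ n₀ + L + d) := by
    intro d hd
    have hm : n₀ + L + d ≡ c p + d [MOD p ^ (k + 1)] := Nat.ModEq.add_right _ hmod
    have hm1 : n₀ + L + d ≡ c p + d [MOD p] :=
      hm.of_dvd (dvd_pow_self _ (Nat.succ_ne_zero _))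
    have hmk : n₀ + L + d ≡ c p + d [MOD p ^ k] := hm.of_dvd (pow_dvd_pow _ (Nat.le_succ _))
    rcases hd with h | h
    · exact Or.inl fun h' => h ((hm1.dvd_iff (dvd_refl _)).1 h')
    · exact Or.inr ((hmk.dvd_iff (dvd_refl _)).2 h)
  obtain ⟨h0, h1, h2⟩ := hc p hp
  refine ⟨?_, key d₁ h1, key d₂ h2⟩
  simpa using key 0 (by simpa using h0)

/-- For every `k`, all positive `N₁, N₂, M` and every bound `B` there is a multiplier `t ≥ B` with
`t ≡ 1 (mod M)` such that the pair `(t N₁, t N₂)` is `k`-realisable. -/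
theorem result (k : ℕ) (_hk : 2 ≤ k) (N₁ N₂ M B : ℕ) (_h₁ : 0 < N₁) (_h₂ : 0 < N₂)
    (hM : 0 < M) :
    ∃ t : ℕ, B ≤ t ∧ t ≡ 1 [MOD M] ∧ Realisable k (t * N₁) (t * N₂) := by
  classical
  obtain ⟨n, hn, hloc⟩ := base_point k M N₁ (N₁ + N₂)
  set X : ℕ := n * (n + N₁) * (n + (N₁ + N₂)) with hX
  have hX0 : X ≠ 0 := by positivity
  set u : ℕ := ∏ p ∈ X.primeFactors \ M.primeFactors, p with hu
  have hcop : Nat.Coprime u M := by
    rw [hu]
    refine Nat.Coprime.prod_left fun p hp => ?_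
    rw [Finset.mem_sdiff] at hp
    have hpp := Nat.prime_of_mem_primeFactors hp.1
    rw [hpp.coprime_iff_not_dvd]
    exact fun h => hp.2 (Nat.mem_primeFactors.2 ⟨hpp, h, hM.ne'⟩)
  have hupos : 0 < u := Finset.prod_pos fun p hp =>
    (Nat.prime_of_mem_primeFactors (Finset.mem_sdiff.1 hp).1).pos
  set t : ℕ := u ^ (M.totient * k) * (M + 1) ^ ((B + 1) * k) with ht
  have hphi : 0 < M.totient := Nat.totient_pos.2 hM
  have hut : u ^ k ∣ t := by
    refine Dvd.dvd.mul_right (pow_dvd_pow _ ?_) _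
    exact Nat.le_mul_of_pos_left _ hphi
  have hMt : (M + 1) ^ k ∣ t := by
    refine Dvd.dvd.mul_left (pow_dvd_pow _ ?_) _
    exact Nat.le_mul_of_pos_left _ (Nat.succ_pos _)
  have htpos : 0 < t := by positivity
  -- every multiple is powerful
  have hpow : ∀ y : ℕ, 0 < y → y ∣ X → (∀ p ∈ M.primeFactors, ¬ p ∣ y ∨ p ^ k ∣ y) →
      KPowerful k (t * y) := by
    intro y hy hyX hyM
    refine ⟨Nat.mul_pos htpos hy, fun q hq hqd => ?_⟩
    by_cases hqu : q ∣ u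
    · exact Dvd.dvd.mul_right ((pow_dvd_pow_of_dvd hqu k).trans hut) _
    by_cases hqM : q ∣ M + 1
    · exact Dvd.dvd.mul_right ((pow_dvd_pow_of_dvd hqM k).trans hMt) _
    have hqt : ¬ q ∣ t := by
      rw [ht]
      intro h
      rcases (hq.dvd_mul).1 h with h | h
      · exact hqu (hq.dvd_of_dvd_pow h)
      · exact hqM (hq.dvd_of_dvd_pow h)
    have hqy : q ∣ y := ((hq.dvd_mul).1 hqd).resolve_left hqt
    have hqX : q ∈ X.primeFactors := Nat.mem_primeFactors.2 ⟨hq, hqy.trans hyX, hX0⟩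
    have hqMf : q ∈ M.primeFactors := by
      by_contra hcon
      exact hqu (Finset.dvd_prod_of_mem _ (Finset.mem_sdiff.2 ⟨hqX, hcon⟩))
    rcases hyM q hqMf with h | h
    · exact (h hqy).elim
    · exact Dvd.dvd.mul_left h _
  refine ⟨t, ?_, ?_, t * n, t * (n + N₁), t * (n + (N₁ + N₂)), ?_, ?_, ?_, ?_, ?_⟩
  · -- size
    have hk0 : 0 < k := by omega
    have h2 : B + 1 < 2 ^ (B + 1) := Nat.lt_two_pow_self
    have h3 : 2 ^ (B + 1) ≤ (M + 1) ^ (B + 1) := Nat.pow_le_pow_left (by omega) _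
    have h4 : (M + 1) ^ (B + 1) ≤ (M + 1) ^ ((B + 1) * k) :=
      Nat.pow_le_pow_right (by omega) (Nat.le_mul_of_pos_right _ hk0)
    have h5 : (M + 1) ^ ((B + 1) * k) ≤ t :=
      Nat.le_mul_of_pos_left _ (pow_pos hupos _)
    omega
  · -- congruence
    have h1 : u ^ (M.totient * k) ≡ 1 [MOD M] := by
      have := (Nat.ModEq.pow_totient hcop).pow k
      rwa [one_pow, ← pow_mul] at this
    have h2 : (M + 1) ^ ((B + 1) * k) ≡ 1 [MOD M] := by
      have h : M + 1 ≡ 1 [MOD M] := by simp [Nat.ModEq]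
      simpa using h.pow ((B + 1) * k)
    simpa using h1.mul h2
  · exact hpow n hn ⟨(n + N₁) * (n + (N₁ + N₂)), by rw [hX]; ring⟩ fun p hp => (hloc p hp).1
  · exact hpow (n + N₁) (by omega) ⟨n * (n + (N₁ + N₂)), by rw [hX]; ring⟩
      fun p hp => (hloc p hp).2.1
  · exact hpow (n + (N₁ + N₂)) (by omega) ⟨n * (n + N₁), by rw [hX]; ring⟩
      fun p hp => (hloc p hp).2.2
  · ring
  · ring

end Pool.Agent.Results.MP_9c60ac_nt.DenseMultiples
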